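import Pool.Agent.Y262.EG.Stm

/-!
# Locally constant invariant functions are constant
-/

set_option autoImplicit false

open Set Filter Topology MeasureTheory
open scoped ContDiff

noncomputable section

namespace Pool.Agent.Y378.EG

open Pool.Agent.Y262.EG

/-- the curvature vanishes on the closed flat cylinder -/
theorem curv_flat (hFr : StFrame) {Ω : Set ℂ} {φ : ℂ → ℝ} {L δ' : ℝ} {g : ℝ → ℝ}
    (hΩ : IsOpen Ω) (hφ : ContDiffOn ℝ ∞ φ Ω) (hL : 0 < L) (hδ : 0 < δ') (hst : Stp L δ' ⊆ Ω)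
    (hrot : ∀ z ∈ Stp L δ', φ z = g z.re) (hflat : ∀ x, 0 ≤ x → x ≤ L → g x = 0) {w : ℂ}
    (h0 : 0 ≤ w.re) (h1 : w.re ≤ L) : curv φ w = 0 := by
  have hint : ∀ z : ℂ, 0 < z.re → z.re < L → curv φ z = 0 := by
    intro z hz0 hz1
    have hev : ∀ᶠ z' in 𝓝 z, φ z' = 0 := by
      have ho : IsOpen {z' : ℂ | 0 < z'.re ∧ z'.re < L} :=
        (isOpen_lt continuous_const Complex.continuous_re).inter
          (isOpen_lt Complex.continuous_re continuous_const)
      filter_upwards [ho.mem_nhds ⟨hz0, hz1⟩] with z' hz'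
      rw [hrot z' ⟨by linarith [hz'.1], by linarith [hz'.2]⟩]
      exact hflat _ hz'.1.le hz'.2.le
    have hev2 : φ =ᶠ[𝓝 z] fun _ => (0 : ℝ) := hev
    have hpx : px φ =ᶠ[𝓝 z] fun _ => (0 : ℝ) := by
      filter_upwards [hev2.eventuallyEq_nhds] with z' hz'
      unfold px
      rw [hz'.fderiv_eq]
      simp
    have hpy : py φ =ᶠ[𝓝 z] fun _ => (0 : ℝ) := by
      filter_upwards [hev2.eventuallyEq_nhds] with z' hz'
      unfold py
      rw [hz'.fderiv_eq]
      simp
    have e1 : px (px φ) z = 0 := by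
      change fderiv ℝ (px φ) z 1 = 0
      rw [hpx.fderiv_eq]
      simp
    have e2 : py (py φ) z = 0 := by
      change fderiv ℝ (py φ) z Complex.I = 0
      rw [hpy.fderiv_eq]
      simp
    unfold curv
    rw [e1, e2]
    simp
  -- continuity
  have hws : w ∈ Stp L δ' := ⟨by linarith, by linarith⟩
  have hc : ContinuousAt (curv φ) w :=
    ((hFr Ω φ hΩ hφ).2.2.1.continuousOn).continuousAt (hΩ.mem_nhds (hst hws))
  -- approximate `w` by the points `w + s (L / 2 - re w)`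
  let γ : ℝ → ℂ := fun s => w + ((s * (L / 2 - w.re) : ℝ) : ℂ)
  have hγc : Continuous γ := by
    have : Continuous fun s : ℝ => s * (L / 2 - w.re) := continuous_id.mul continuous_const
    exact continuous_const.add (Complex.continuous_ofReal.comp this)
  have hγ0 : γ 0 = w := by simp [γ]
  have hγre : ∀ s, (γ s).re = w.re + s * (L / 2 - w.re) := by
    intro s
    simp [γ]
  have ht : Tendsto (fun s => curv φ (γ s)) (𝓝[>] 0) (𝓝 (curv φ w)) := by
    have h2 : Tendsto γ (𝓝[>] 0) (𝓝 w) := by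
      have := hγc.tendsto 0
      rw [hγ0] at this
      exact this.mono_left nhdsWithin_le_nhds
    exact hc.tendsto.comp h2
  have hz : ∀ᶠ s in 𝓝[>] (0 : ℝ), curv φ (γ s) = 0 := by
    have hlt : ∀ᶠ s in 𝓝[>] (0 : ℝ), s < 1 :=
      nhdsWithin_le_nhds (Iio_mem_nhds one_pos)
    filter_upwards [hlt, self_mem_nhdsWithin] with s hs1 hs0
    have hs0' : (0 : ℝ) < s := hs0
    apply hint
    · rw [hγre]
      nlinarith
    · rw [hγre]
      nlinarith
  have ht2 : Tendsto (fun s => curv φ (γ s)) (𝓝[>] 0) (𝓝 0) :=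
    (tendsto_congr' hz).mpr tendsto_const_nhds
  exact tendsto_nhds_unique ht ht2

theorem glob : StFrame → StEt → StFinP → StFlP → StMpP → StKP → StInv → StClP → StGlob1 →
    StCross → StGlob := by
  intro hFr _ hFin hFlP hMp hKP hInv hCl hG1 hCross
  intro M P _ _ _ _ _ _ Ω φ pr q m Fl L δ δ' κ C g hUT hLi hGeo hCls f hf hinv hloc
  obtain ⟨a, ha⟩ := hG1 M P Ω φ pr q hUT f hloc
  obtain ⟨hFl1, -, -, -⟩ := hFlP M P Ω φ pr q Fl hUT hGeo
  obtain ⟨hk1, -, hk3, -, -⟩ := hKP M P Ω φ pr q L δ δ' κ C g hUT hCls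
  have hδ' : 0 < δ' := hCls.posδ.trans hCls.ltδ
  have hcr := hCross M P Ω φ pr q Fl L δ δ' κ C g hUT hGeo hCls f (by
    intro t p hp
    rw [← hFl1 t p hp, hinv]) a ha
  -- the base point
  set z0 : ℂ := ((-(δ' / 2) : ℝ) : ℂ) with hz0
  have hz0re : z0.re = -(δ' / 2) := Complex.ofReal_re _
  have hz0s : z0 ∈ Stp L δ' := by
    constructor
    · rw [hz0re]; linarith
    · rw [hz0re]; linarith [hCls.posL]
  have hz0n : z0.re < 0 ∨ L < z0.re := by
    left
    rw [hz0re]
    linarith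
  set a0 : ℝ := a (pr z0) with ha0
  -- the strip
  have hstrip : ∀ z ∈ Ω, curv φ z < 0 → ∀ w ∈ Stp L δ', pr w = pr z → a (pr z) = a0 := by
    intro z hz hcz w hw hwz
    have h1 := (hInv M P Ω φ pr q hUT w (hCls.strip hw) z hz hwz).1
    have h2 : w.re < 0 ∨ L < w.re := by
      by_contra hne
      push Not at hne
      have := curv_flat hFr hUT.opn hUT.smooth hCls.posL hδ' hCls.strip hCls.rot hCls.flat
        hne.1 hne.2
      rw [h1] at this
      exact absurd this hcz.ne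
    rw [← hwz]
    exact (hcr w hw z0 hz0s h2 hz0n).2
  -- the surface is connected
  have hopen : ∀ R : ℝ → Prop, IsOpen {x : M | ∃ z ∈ Ω, pr z = x ∧ curv φ z < 0 ∧ R (a x)} := by
    intro R
    rw [isOpen_iff_forall_mem_open]
    rintro x ⟨z, hz, rfl, hcz, hR⟩
    obtain ⟨r, hr, hball, hb2, -⟩ := ha (z, 0) hz hcz
    have hmem : ∀ z' ∈ Metric.ball z r, ((z', 0) : Y) ∈ Metric.ball ((z, 0) : Y) r := by
      intro z' hz'
      rw [Metric.mem_ball, Prod.dist_eq, dist_self]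
      exact max_lt hz' hr
    have hsub : Metric.ball z r ⊆ Ω := fun z' hz' => hball (hmem z' hz')
    refine ⟨pr '' Metric.ball z r, ?_, hUT.opnp _ Metric.isOpen_ball hsub,
      ⟨z, Metric.mem_ball_self hr, rfl⟩⟩
    rintro _ ⟨z', hz', rfl⟩
    have h3 := hb2 _ (hmem z' hz')
    refine ⟨z', hsub hz', rfl, h3.1, ?_⟩
    rw [h3.2]
    exact hR
  have hall : ∀ z ∈ Ω, curv φ z < 0 → a (pr z) = a0 := by
    by_contra hne
    push Not at hne
    obtain ⟨z1, hz1, hc1, ha1⟩ := hne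
    have hstO : IsOpen (Stp L δ') :=
      (isOpen_lt continuous_const Complex.continuous_re).inter
        (isOpen_lt Complex.continuous_re continuous_const)
    have hpre := hCls.conn
      ({x : M | ∃ z ∈ Ω, pr z = x ∧ curv φ z < 0 ∧ a x = a0} ∪ pr '' Stp L δ')
      {x : M | ∃ z ∈ Ω, pr z = x ∧ curv φ z < 0 ∧ a x ≠ a0}
      ((hopen fun y => y = a0).union (hUT.opnp _ hstO hCls.strip)) (hopen fun y => y ≠ a0)
      (by
        intro x _
        have hx : x ∈ pr '' Ω := hUT.surjp ▸ mem_univ x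
        obtain ⟨z, hz, rfl⟩ := hx
        rcases (hCls.neg z hz).lt_or_eq with h | h
        · by_cases h2 : a (pr z) = a0
          · exact Or.inl (Or.inl ⟨z, hz, rfl, h, h2⟩)
          · exact Or.inr ⟨z, hz, rfl, h, h2⟩
        · obtain ⟨w, hw0, hw1, hw2⟩ := hCls.zero z hz h
          exact Or.inl (Or.inr ⟨w, ⟨by linarith, by linarith⟩, hw2⟩))
      ⟨pr z0, mem_univ _, Or.inr ⟨z0, hz0s, rfl⟩⟩
      ⟨pr z1, mem_univ _, z1, hz1, rfl, hc1, ha1⟩
    obtain ⟨x, -, hxU, z, hz, hzx, hcz, hax⟩ := hpre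
    rcases hxU with ⟨z', -, -, -, hax'⟩ | ⟨w, hw, hwx⟩
    · exact hax hax'
    · apply hax
      rw [← hzx]
      exact hstrip z hz hcz w hw (hwx.trans hzx.symm)
  -- the exceptional set where the curvature is negative
  set E : Set P := {x | 0 < kP Ω φ q x ∧ f x ≠ a0} with hE
  have hEnull : m E = 0 := by
    set B0 : Set Y := {p | p ∈ YO Ω ∧ curv φ p.1 < 0 ∧ f (q p) ≠ a0} with hB0
    have hB0null : volume B0 = 0 := by
      refine measure_null_of_locally_null _ ?_
      rintro p0 ⟨hp0, hc0, -⟩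
      obtain ⟨r, hr, -, -, hae⟩ := ha p0 hp0 hc0
      refine ⟨B0 ∩ Metric.ball p0 r, inter_mem self_mem_nhdsWithin
        (nhdsWithin_le_nhds (Metric.ball_mem_nhds _ hr)), ?_⟩
      rw [hall p0.1 hp0 hc0, ae_iff, Measure.restrict_apply' Metric.isOpen_ball.measurableSet]
        at hae
      refine measure_mono_null ?_ hae
      rintro p ⟨hp, hpb⟩
      exact ⟨hp.2.2, hpb⟩
    have hYO : IsOpen (YO Ω) := hUT.opn.preimage continuous_fst
    have hB1 := ((hFin M P Ω φ pr q m hUT hLi).2.2 (toMeasurable volume B0 ∩ YO Ω)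
      ((measurableSet_toMeasurable _ _).inter hYO.measurableSet) inter_subset_right).2.1
      (measure_mono_null inter_subset_left (by rw [measure_toMeasurable]; exact hB0null))
    refine measure_mono_null ?_ hB1
    rintro x ⟨hkx, hfx⟩
    have hx : x ∈ q '' YO Ω := hUT.surjq ▸ mem_univ x
    obtain ⟨p, hp, rfl⟩ := hx
    rw [(hk1 p hp).1] at hkx
    exact ⟨p, ⟨subset_toMeasurable _ _ ⟨hp, by linarith, hfx⟩, hp⟩, rfl⟩
  -- the vectors which never leave the flat region
  set Zs : Set P := {x | ∀ t : ℝ, kP Ω φ q (FlP Ω q Fl t x) = 0} with hZs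
  have hZnull : m Zs = 0 := by
    obtain ⟨C', hC'⟩ := hCl M P Ω φ pr q m Fl L δ δ' κ C g hUT hLi hGeo hCls
    have h1 : ∀ n : ℕ, 1 ≤ n → m Zs ≤ ENNReal.ofReal (C' / Real.sqrt n) := by
      intro n hn
      refine (measure_mono ?_).trans (hC' n (by exact_mod_cast hn))
      intro x hx t _
      rw [hx t]
      exact hCls.posκ
    have h2 : Tendsto (fun n : ℕ => ENNReal.ofReal (C' / Real.sqrt n)) atTop (𝓝 0) := by
      have h3 : Tendsto (fun n : ℕ => C' / Real.sqrt n) atTop (𝓝 0) := by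
        apply Tendsto.const_div_atTop
        exact Real.tendsto_sqrt_atTop.comp tendsto_natCast_atTop_atTop
      have h4 := ENNReal.tendsto_ofReal h3
      rwa [ENNReal.ofReal_zero] at h4
    exact le_antisymm (ge_of_tendsto h2 (eventually_atTop.mpr ⟨1, h1⟩)) zero_le
  refine ⟨a0, ?_⟩
  rw [ae_iff]
  have hun : m (Zs ∪ ⋃ t : ℚ, FlP Ω q Fl (t : ℝ) ⁻¹' E) = 0 := by
    rw [measure_union_null_iff]
    refine ⟨hZnull, ?_⟩
    rw [measure_iUnion_null_iff]
    intro t
    exact ((hMp M P Ω φ pr q m Fl hUT hLi hGeo (t : ℝ)).quasiMeasurePreserving).preimage_null hEnull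
  refine measure_mono_null ?_ hun
  intro x hx
  have hfx : ¬ f x = a0 := hx
  by_cases hxZ : x ∈ Zs
  · exact Or.inl hxZ
  · right
    have hxq : x ∈ q '' YO Ω := hUT.surjq ▸ mem_univ x
    obtain ⟨p, hp, rfl⟩ := hxq
    have hkt : ∀ t, kP Ω φ q (FlP Ω q Fl t (q p)) = -curv φ (Fl t p).1 := by
      intro t
      rw [hFl1 t p hp, (hk1 _ (hGeo.maps t p hp)).1]
    have hcont : Continuous fun t : ℝ => -curv φ (Fl t p).1 := by
      refine Continuous.neg ?_
      rw [continuous_iff_continuousAt]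
      intro t
      have h1 : ContinuousAt (curv φ) (Fl t p).1 :=
        ((hFr Ω φ hUT.opn hUT.smooth).2.2.1.continuousOn).continuousAt
          (hUT.opn.mem_nhds (hGeo.maps t p hp))
      have h2 : ContinuousAt (fun τ => (Fl τ p).1) t :=
        continuous_fst.continuousAt.comp (hGeo.ode t p hp).continuousAt
      exact ContinuousAt.comp (f := fun τ => (Fl τ p).1) (g := curv φ) h1 h2
    have hex : ∃ t : ℝ, 0 < -curv φ (Fl t p).1 := by
      have h3 : ¬ ∀ t : ℝ, kP Ω φ q (FlP Ω q Fl t (q p)) = 0 := hxZ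
      push Not at h3
      obtain ⟨t, ht⟩ := h3
      refine ⟨t, ?_⟩
      rw [← hkt]
      exact lt_of_le_of_ne (hk3 _) (Ne.symm ht)
    have hop : IsOpen {t : ℝ | 0 < -curv φ (Fl t p).1} := isOpen_lt continuous_const hcont
    obtain ⟨t, ht⟩ := (Rat.denseRange_cast (𝕜 := ℝ)).exists_mem_open hop hex
    refine mem_iUnion.mpr ⟨t, ?_, ?_⟩
    · change 0 < kP Ω φ q (FlP Ω q Fl (t : ℝ) (q p))
      rw [hkt]
      exact ht
    · change f (FlP Ω q Fl (t : ℝ) (q p)) ≠ a0
      rw [hinv]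
      exact hfx

end Pool.Agent.Y378.EG
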